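import Mathlib
import Pool.Agent.Lib.helper12.UExp

set_option autoImplicit false

open Pool.Agent.Lib.helper12.UExp

/-- No pair of nonprincipal ultrafilters on the positive integers has `E₁(p,q) = E₂(p,q)`
(Q1: the set of pairs is empty; Q2: in particular none on the diagonal). -/
theorem Pool.Agent.Results.MP_846ee0_co.Full.result (p q : Ultrafilter ℕ+)
    (hp : ∀ n, p ≠ pure n) (hq : ∀ n, q ≠ pure n) :
    ¬ ∀ A : Set ℕ+, {n | {m : ℕ+ | n ^ (m : ℕ) ∈ A} ∈ q} ∈ p ↔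
      {n : ℕ+ | {m | m ^ (n : ℕ) ∈ A} ∈ q} ∈ p :=
  fun h => ne p q hp hq (Ultrafilter.ext fun A => h A)
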